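import Pool.Agent.H70.OQ.Targets
import Pool.Agent.H35.NB.EXI

/-!
MP_0f8dca_lc, module EXJ: there is a good configuration.
-/

set_option autoImplicit false

namespace Pool.Agent.H75.OQ.EXJ

open Finset Pool.Agent.H6.NB Pool.Agent.H70.OQ Pool.Agent.H35.NB.E

theorem exj (h1 : T_IDG) (h2 : T_MEG) (h3 : Pool.Agent.H6.NB.T_HYB)
    (h4 : Pool.Agent.H6.NB.T_CPY) (h5 : T_CHG) (h6 : T_CBG) (h7 : Pool.Agent.H6.NB.T_CLR)
    (h8 : Pool.Agent.H6.NB.T_DIF) (h9 : Pool.Agent.H6.NB.T_MUP)
    (h10 : Pool.Agent.H6.NB.T_DCP) : T_EXJ := by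
  classical
  intro W X B Ω _ _ _ _ _ _ nn qb T U D lev S t d h S' M w r k δ δm Λ hSys hPrm hbase hδ hX hS2 hSS
    htS hKM hMS hΩS hq hL12 hδm hsum1 hsum2
  -- weights
  let Tp : Ω → Type := fun s => Fin (nn s) → VV (qb s) → Bool
  let m : Bool → ∀ s, Tp s → ℝ := fun b s p => ∏ i, mu b (qb s) (p i)
  have hmu0 : ∀ b q p, 0 ≤ mu b q p := fun b q p => (h9 b q).1 p
  have hmu1 : ∀ b q, ∑ p, mu b q p = 1 := fun b q => (h9 b q).2.1
  have hm0 : ∀ b s p, 0 ≤ m b s p := fun b s p => Finset.prod_nonneg fun i _ => hmu0 _ _ _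
  have hm1 : ∀ b s, ∑ p, m b s p = 1 := by
    intro b s
    have := Fintype.sum_pow (fun p => mu b (qb s) p) (nn s)
    rw [hmu1, one_pow] at this
    exact this.symm
  let Wt : (Ω → Bool) → (∀ s, Tp s) → ℝ := fun κ P => ∏ s, m (κ s) s (P s)
  have hW0 : ∀ κ P, 0 ≤ Wt κ P := fun κ P => Finset.prod_nonneg fun s _ => hm0 _ _ _
  have hW1 : ∀ κ, ∑ P, Wt κ P = 1 := fun κ => sum_prod_one (fun s p => m (κ s) s p) fun s => hm1 _ _
  -- the event
  let F : W → (Ω → Bool) → (∀ s, Tp s) → ℝ := fun p e P =>
    bi (decide (¬ TyG (accG D P) lev h k h (T p) (U p) e))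
  set TT : ℝ := (Fintype.card W : ℝ) * 2 ^ Fintype.card Ω with hTT
  have hTT0 : 0 < TT := by
    have : 0 < Fintype.card W := Fintype.card_pos
    positivity
  -- Step 1 and 2
  have hstep : ∀ p : W, ∑ P, ∑ κ, Wt κ P * F p (elG (accG D P) (T p) κ h) P ≤
      ∑ e, (∑ P, Wt (fun _ => false) P * F p e P + 1 / 4) := by
    intro p
    have e1 : ∀ P, ∑ κ, Wt κ P * F p (elG (accG D P) (T p) κ h) P =
        ∑ e, Wt (thG (accG D P) (T p) e) P * F p e P := by
      intro P
      exact h5 B Ω (accG D P) lev h (T p) (fun κ e => Wt κ P * F p e P)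
        (h2 B Ω nn qb D lev S t d h hSys P).1
    rw [Finset.sum_congr rfl fun P _ => e1 P, Finset.sum_comm]
    refine Finset.sum_le_sum fun e _ => ?_
    have hhyb := h3 Ω Tp lev (fun P s => thG (accG D P) (T p) e s) m (fun P => F p e P)
      (fun s => (nn s : ℝ) * ((Λ + 1) / √(2 ^ qb s))) hm0 hm1 (by
        intro P P' s hPP
        simp only [thG, accG]
        congr 1
        refine hSys.low s _ _ fun c hc => ?_
        cases c with
        | cst b => rfl
        | bas x => rfl
        | key s' => rfl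
        | blk s' i v =>
          simp only [vlG]
          rw [hPP s' hc]) (by
        intro P s
        have hcpy := h4 (nn s) (VV (qb s) → Bool) (mu true (qb s)) (mu false (qb s))
          (fun q => F p e (Function.update P s q)) ((Λ + 1) / √(2 ^ qb s)) (hmu0 _ _) (hmu0 _ _)
          (hmu1 _ _) (hmu1 _ _) (by
            intro P' i
            have hupd : ∀ q, updC (nn := nn) (qq := qb) (Function.update P s P') s i q =
                Function.update P s (Function.update P' i q) := by
              intro q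
              simp [updC]
            have hcl : Cl (VV (qb s)) S' ((d + 5) * h + 2) fun q =>
                decide (¬ TyG (accG D (Function.update P s (Function.update P' i q))) lev h k h
                  (T p) (U p) e) := by
              have := h6 X B Ω nn qb D lev S t d h S' M k hSys hS2 hSS htS hKM hMS hΩS hX (T p)
                (U p) e (Function.update P s P') s i
              simp only [hupd] at this
              exact this
            refine h8 (qb s) (fun q => F p e (Function.update P s (Function.update P' i q))) Λ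
              (hq s) ?_ ?_
            · intro ρ
              exact hL12 s _ (h7 (VV (qb s)) S' ((d + 5) * h + 2) _ ρ hcl)
            · intro y
              have := bi_le (decide (¬ TyG (accG D (Function.update P s (Function.update P' i y)))
                lev h k h (T p) (U p) e))
              rw [abs_le]
              exact ⟨by linarith [this.1], this.2⟩)
        exact hcpy)
    have := (abs_le.mp hhyb).2
    linarith
  -- Step 3
  have hcount : ∀ P, ∑ p : W, ∑ e, F p e P ≤ TT / 4 := by
    intro P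
    have e1 : ∑ p : W, ∑ e, F p e P = ((univ.filter fun p : W × (Ω → Bool) =>
        ¬ TyG (accG D P) lev h k h (T p.1) (U p.1) p.2).card : ℝ) := by
      rw [Finset.card_filter, Fintype.sum_prod_type]
      push_cast
      refine Finset.sum_congr rfl fun p _ => Finset.sum_congr rfl fun e _ => ?_
      simp only [F, bi, decide_eq_true_eq]
    rw [e1]
    have hM := h2 B Ω nn qb D lev S t d h hSys P
    have e2 := h1 W X B Ω T U (accG D P) lev h S t d w r k δ δm hM.1 hM.2 hPrm hbase hδ
    refine e2.trans ?_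
    rw [← hTT]
    nlinarith
  have hA : ∑ p : W, ∑ P, ∑ κ, Wt κ P * F p (elG (accG D P) (T p) κ h) P ≤ TT / 2 := by
    refine (Finset.sum_le_sum fun p _ => hstep p).trans ?_
    simp only [Finset.sum_add_distrib]
    have e1 : ∑ p : W, ∑ e : Ω → Bool, ∑ P, Wt (fun _ => false) P * F p e P ≤ TT / 4 := by
      have e2 : ∑ p : W, ∑ e : Ω → Bool, ∑ P, Wt (fun _ => false) P * F p e P =
          ∑ P, Wt (fun _ => false) P * ∑ p : W, ∑ e, F p e P := by
        simp only [Finset.mul_sum]
        rw [Finset.sum_congr rfl fun p _ => Finset.sum_comm]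
        rw [Finset.sum_comm]
      rw [e2]
      calc _ ≤ ∑ P, Wt (fun _ => false) P * (TT / 4) :=
            Finset.sum_le_sum fun P _ => mul_le_mul_of_nonneg_left (hcount P) (hW0 _ _)
        _ = _ := by rw [← Finset.sum_mul, hW1, one_mul]
    have e3 : ∑ _p : W, ∑ _e : Ω → Bool, (1 / 4 : ℝ) = TT / 4 := by
      simp only [Finset.sum_const, Finset.card_univ, Fintype.card_fun, Fintype.card_bool,
        nsmul_eq_mul]
      push_cast
      rw [hTT]
      ring
    linarith
  -- Step 5
  let φ : ∀ (κ : Ω → Bool) (s : Ω), Tp s → ℝ := fun κ s p =>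
    if DecA (qb s) (nn s) (κ s) p then 0 else 1
  have hφ0 : ∀ κ s p, 0 ≤ φ κ s p := by
    intro κ s p
    simp only [φ]
    split_ifs <;> norm_num
  have hB : ∑ _p : W, ∑ P, ∑ κ, Wt κ P * ∑ s, φ κ s (P s) ≤ TT / 4 := by
    have e1 : ∀ κ, ∑ P, Wt κ P * ∑ s, φ κ s (P s) ≤ 1 / 4 := by
      intro κ
      simp only [Finset.mul_sum]
      rw [Finset.sum_comm]
      refine le_trans (Finset.sum_le_sum fun s _ => ?_) hsum2
      have e2 := sum_prod_marg (fun s p => m (κ s) s p) (φ κ) (fun s => hm1 _ _) s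
      rw [e2]
      exact h10 (qb s) (nn s) (κ s)
    have e3 : ∑ P, ∑ κ, Wt κ P * ∑ s, φ κ s (P s) ≤ 2 ^ Fintype.card Ω * (1 / 4) := by
      rw [Finset.sum_comm]
      calc _ ≤ ∑ _κ : Ω → Bool, (1 / 4 : ℝ) := Finset.sum_le_sum fun κ _ => e1 κ
        _ = _ := by
          simp only [Finset.sum_const, Finset.card_univ, Fintype.card_fun, Fintype.card_bool,
            nsmul_eq_mul]
          push_cast
          ring
    calc _ ≤ ∑ _p : W, (2 ^ Fintype.card Ω * (1 / 4) : ℝ) := Finset.sum_le_sum fun p _ => e3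
      _ = _ := by
        simp only [Finset.sum_const, Finset.card_univ, nsmul_eq_mul]
        rw [hTT]
        ring
  -- total mass
  have hmass : ∑ _p : W, ∑ P, ∑ κ, Wt κ P = TT := by
    have e1 : ∑ P, ∑ κ, Wt κ P = 2 ^ Fintype.card Ω := by
      rw [Finset.sum_comm, Finset.sum_congr rfl fun κ _ => hW1 κ]
      simp
    rw [Finset.sum_congr rfl fun _ _ => e1]
    simp only [Finset.sum_const, Finset.card_univ, nsmul_eq_mul]
    rw [hTT]
  by_contra hno
  push Not at hno
  have hge : ∀ (p : W) P κ, (1 : ℝ) ≤ F p (elG (accG D P) (T p) κ h) P + ∑ s, φ κ s (P s) := by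
    intro p P κ
    by_cases ht : TyG (accG D P) lev h k h (T p) (U p) (elG (accG D P) (T p) κ h)
    · obtain ⟨s, hs⟩ := hno p κ P ht
      have e1 : φ κ s (P s) = 1 := if_neg hs
      have e2 : φ κ s (P s) ≤ ∑ s, φ κ s (P s) :=
        Finset.single_le_sum (f := fun s => φ κ s (P s)) (fun s _ => hφ0 κ s _) (Finset.mem_univ s)
      have e3 := (bi_le (decide (¬ TyG (accG D P) lev h k h (T p) (U p)
        (elG (accG D P) (T p) κ h)))).1
      simp only [F]
      linarith
    · have e1 : F p (elG (accG D P) (T p) κ h) P = 1 := by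
        simp [F, bi, ht]
      have e2 : 0 ≤ ∑ s, φ κ s (P s) := Finset.sum_nonneg fun s _ => hφ0 κ s _
      linarith
  have hfin : TT ≤ TT / 2 + TT / 4 := by
    calc TT = ∑ _p : W, ∑ P, ∑ κ, Wt κ P := hmass.symm
      _ ≤ ∑ p : W, ∑ P, ∑ κ, (Wt κ P * F p (elG (accG D P) (T p) κ h) P +
          Wt κ P * ∑ s, φ κ s (P s)) := by
        refine Finset.sum_le_sum fun p _ => Finset.sum_le_sum fun P _ =>
          Finset.sum_le_sum fun κ _ => ?_
        have := mul_le_mul_of_nonneg_left (hge p P κ) (hW0 κ P)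
        rw [mul_one, mul_add] at this
        exact this
      _ = _ := by simp only [Finset.sum_add_distrib]
      _ ≤ _ := add_le_add hA hB
  linarith

end Pool.Agent.H75.OQ.EXJ
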