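import Pool.Agent.H70.OQ.Targets
import Pool.Agent.H35.NB.PAR

/-!
MP_0f8dca_lc, module PRG: the parameters of the stage.
-/

set_option autoImplicit false

namespace Pool.Agent.H75.OQ.PRG

open Filter Topology Pool.Agent.H70.OQ Pool.Agent.H35.NB.P

theorem prg (h1 : T_PMG) (h2 : T_ERR) : T_PRG := by
  intro k c C ε hε
  refine ⟨c + 1, ?_⟩
  set a := c + 1 with ha
  obtain ⟨B, hB⟩ := h1 a (k + 1) (2 ^ a + 1)
  set D := 2 ^ a + B + 3 with hD
  set m := (k + 6) * a + 2 with hm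
  set P := 2 * m + 3 with hP
  have e1 := ev1 ((D + 1) * P) 2 (1 / 128 ^ P) (by norm_num) (by positivity)
  have e2 := ev1 B ((2 : ℝ) ^ (2 * ε)) (1 / (144 * ((C : ℝ) + 1) ^ 2))
    (Real.one_lt_rpow (by norm_num) (by positivity)) (by positivity)
  filter_upwards [e1, e2, hB, h2 B k, eventually_ge_atTop (c + 3 + 226 + 2 * m + 2 ^ (k + 2))] with
    n h1 h2 hB hE hn
  have hpk : 1 ≤ 2 ^ (k + 2) := Nat.one_le_two_pow
  have hn2 : 2 ≤ n := by omega
  have hn0 : 0 < n := by omega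
  have ha2 : c + 2 ≤ 2 ^ a := Nat.lt_two_pow_self
  set N1 := n ^ 2 ^ a with hN1
  have hN1pos : 1 ≤ N1 := Nat.one_le_pow _ _ hn0
  have hmono : ∀ {i j : ℕ}, i ≤ j → n ^ i ≤ n ^ j := fun h => Nat.pow_le_pow_right hn0 h
  have hsucc : ∀ i, 3 * n ^ i ≤ n ^ (i + 1) := by
    intro i
    rw [pow_succ, mul_comm]
    exact Nat.mul_le_mul_left _ (by omega)
  have hNb : N1 + 1 ≤ n ^ (2 ^ a + 1) := by
    have := hsucc (2 ^ a)
    rw [← hN1] at this
    omega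
  obtain ⟨k0, w0, ρ0, w, r, κ, δ, ht0, hw1, hwB, hκ0, hk0, hδ0, hρB, hineq, hPrm, hδ, hκ⟩ :=
    hB N1 (N1 + 1) hN1pos (by omega) hNb
  have hMpos : 1 ≤ n ^ B := Nat.one_le_pow _ _ hn0
  have hDB : n ^ B ≤ n ^ D := hmono (by omega)
  have hN1D : N1 ≤ n ^ D := hmono (by omega)
  refine ⟨N1, 2 ^ n ^ D, n ^ B, n ^ (D + 1), w0, w, r, κ, δ, 1 / 4 ^ (N1 + 1), hn2, ?_, ?_, ?_,
    hw1, ht0, ?_, ?_, hPrm, hδ, ?_, ?_, ?_, hκ, hMpos, ?_, ?_, Nat.one_le_pow _ _ hn0, ?_, ?_⟩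
  · have h3 : n ^ c ≤ n ^ (c + 1) := hmono (by omega)
    have h4 : c ≤ n ^ (c + 1) := by
      have : n ^ 1 ≤ n ^ (c + 1) := hmono (by omega)
      rw [pow_one] at this
      omega
    have h5 := hsucc (c + 1)
    have h6 : n ^ (c + 2) ≤ N1 := hmono ha2
    have h7 : c + 1 + 1 = c + 2 := rfl
    rw [h7] at h5
    omega
  · have h3 : n ^ 2 ≤ N1 := hmono (by omega)
    have h4 : 2 ^ (k + 2) + 1 ≤ n := by omega
    have h5 : (2 ^ (k + 2) + 1) * n ≤ n * n := Nat.mul_le_mul_right _ h4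
    have h6 : n ^ 2 = n * n := pow_two n
    have h7 : (2 ^ (k + 2) + 1) * n = 2 ^ (k + 2) * n + n := by ring
    omega
  · rw [pow_two]
    exact Nat.le_mul_of_pos_right _ (by omega)
  · rw [hκ0, hk0]
    have : (0 : ℝ) < w0 := by exact_mod_cast hw1
    push_cast
    rw [mul_one_div, le_div_iff₀ (by positivity)]
    nlinarith
  · rw [hδ0]
    refine hE N1 w0 ρ0 hN1pos hwB hρB ?_
    have h3 : (N1 + 1) * (k + 2) ≤ (N1 + 1) * (k + 1 + 2) := Nat.mul_le_mul_left _ (by omega)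
    omega
  · have h3 : (4 : ℝ) ^ (N1 + 1) = 4 * (2 ^ N1 * 2 ^ N1) := by
      rw [pow_succ, show (4 : ℝ) = 2 * 2 by norm_num, mul_pow]
      ring
    have h4 : (1 : ℝ) ≤ 2 ^ N1 := one_le_pow₀ (by norm_num)
    rw [h3, mul_one_div, div_le_div_iff₀ (by positivity) (by norm_num)]
    nlinarith
  · have h3 : 1 ≤ n ^ D := Nat.one_le_pow _ _ hn0
    calc 2 = 2 ^ 1 := by norm_num
      _ ≤ 2 ^ n ^ D := Nat.pow_le_pow_right (by norm_num) h3
  · exact Nat.pow_le_pow_right (by norm_num) hN1D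
  · have h3 : n ^ B < 2 ^ n ^ B := Nat.lt_two_pow_self
    have h4 : 2 ^ n ^ B ≤ 2 ^ n ^ D := Nat.pow_le_pow_right (by norm_num) hDB
    omega
  · rw [← pow_mul, ← pow_add]
    apply Nat.pow_le_pow_right (by norm_num)
    have h3 : n * (n ^ B + 1) = n ^ (B + 1) + n := by ring
    rw [h3]
    have h4 : n ^ (B + 1) ≤ n ^ (D - 1) := hmono (by omega)
    have h5 : N1 ≤ n ^ (D - 1) := hmono (by omega)
    have h6 : n ^ 1 ≤ n ^ (D - 1) := hmono (by omega)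
    have h7 := hsucc (D - 1)
    have h8 : D - 1 + 1 = D := by omega
    rw [h8] at h7
    rw [pow_one] at h6
    omega
  · intro q hq
    have h3 : (128 * ((n ^ (D + 1) : ℕ) : ℝ)) ^ P ≤ 2 ^ n := by
      have h4 : (0 : ℝ) < 128 ^ P := by positivity
      have h5 : (0 : ℝ) < 2 ^ n := by positivity
      rw [div_lt_div_iff₀ h5 h4, one_mul] at h1
      calc (128 * ((n ^ (D + 1) : ℕ) : ℝ)) ^ P = (n : ℝ) ^ ((D + 1) * P) * 128 ^ P := by
            push_cast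
            rw [mul_pow, ← pow_mul]
            ring
        _ ≤ _ := le_of_lt h1
    refine bracket n (n ^ (D + 1)) (n ^ D) m q (Nat.one_le_pow _ _ hn0) ?_ h3
    have h6 : 1 ≤ n ^ D := Nat.one_le_pow _ _ hn0
    have h7 : (n ^ D + 1) * m ≤ n ^ D * (2 * m) := by
      have : (n ^ D + 1) ≤ n ^ D * 2 := by omega
      calc (n ^ D + 1) * m ≤ n ^ D * 2 * m := Nat.mul_le_mul_right _ this
        _ = _ := by ring
    have h8 : 2 + 2 * q ≤ n ^ D * 222 := by omega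
    calc 2 + 2 * q + (n ^ D + 1) * m ≤ n ^ D * 222 + n ^ D * (2 * m) :=
          Nat.add_le_add h8 h7
      _ = n ^ D * (222 + 2 * m) := by ring
      _ ≤ n ^ D * n := Nat.mul_le_mul_left _ (by omega)
      _ = _ := (pow_succ n D).symm
  · exact last C B n ε h2

end Pool.Agent.H75.OQ.PRG
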